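import Mathlib
import Pool.Agent.Lib.helper3.Coins

namespace Pool.Agent.H.MP_204ba2_pr

open Finset MeasureTheory ProbabilityTheory Filter Topology

open Classical in
noncomputable def cnt (a : ℕ → Prop) (N : ℕ) : ℕ := ((range N).filter a).card

lemma cnt_mono (a : ℕ → Prop) {M N : ℕ} (h : M ≤ N) : cnt a M ≤ cnt a N := by
  classical
  unfold cnt
  convert card_le_card (filter_subset_filter a (range_mono h))

lemma cnt_add (a : ℕ → Prop) (N : ℕ) : cnt a N + cnt (fun n => ¬ a n) N = N := by
  classical
  unfold cnt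
  convert (card_filter_add_card_filter_not (s := range N) a).trans (card_range N)

lemma cnt_pos {a : ℕ → Prop} {N : ℕ} (h : a N) : cnt a (N + 1) = cnt a N + 1 := by
  classical
  unfold cnt
  rw [range_add_one, filter_insert, if_pos h, card_insert_of_notMem (by simp)]

lemma cnt_neg {a : ℕ → Prop} {N : ℕ} (h : ¬ a N) : cnt a (N + 1) = cnt a N := by
  classical
  unfold cnt
  rw [range_add_one, filter_insert, if_neg h]

structure Walk (a : ℤ → ℕ → Prop) (X : ℕ → ℤ) (L : ℕ → ℤ → ℕ) : Prop where
  x0 : X 0 = 0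
  l0 : ∀ x, L 0 x = 0
  pos : ∀ n, a (X n) (L n (X n)) → X (n + 1) = X n + 1
  neg : ∀ n, ¬ a (X n) (L n (X n)) → X (n + 1) = X n - 1
  ls : ∀ n, L (n + 1) (X n) = L n (X n) + 1
  lo : ∀ n x, x ≠ X n → L (n + 1) x = L n x

variable {a : ℤ → ℕ → Prop} {X : ℕ → ℤ} {L : ℕ → ℤ → ℕ}

lemma Walk.refl (h : Walk a X L) :
    Walk (fun x n => ¬ a (-x) n) (fun n => -X n) (fun n x => L n (-x)) where
  x0 := by simp [h.x0]
  l0 x := h.l0 _
  pos n hn := by
    simp only [neg_neg] at hn
    rw [h.neg n hn]; ring
  neg n hn := by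
    simp only [neg_neg, not_not] at hn
    rw [h.pos n hn]; ring
  ls n := by simpa using h.ls n
  lo n x hx := h.lo n _ fun e => hx (by rw [← e, neg_neg])

lemma Walk.flow (h : Walk a X L) (n : ℕ) (x : ℤ) :
    (cnt (a x) (L n x) : ℤ) - cnt (fun j => ¬ a (x + 1) j) (L n (x + 1)) =
      (if x < X n then 1 else 0) - if x < 0 then 1 else 0 := by
  induction n with
  | zero => simp [h.l0, h.x0, cnt]
  | succ n ih =>
    by_cases ha : a (X n) (L n (X n))
    · rw [h.pos n ha]
      by_cases h1 : x = X n
      · rw [h.lo n (x + 1) (by omega), h1, h.ls, cnt_pos ha]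
        rw [h1] at ih
        push_cast
        split_ifs at ih ⊢ <;> omega
      · rw [h.lo n x h1]
        by_cases h2 : x + 1 = X n
        · rw [h2] at ih ⊢
          rw [h.ls, cnt_neg (a := fun j => ¬ a (X n) j) (not_not.mpr ha), ih]
          split_ifs <;> omega
        · rw [h.lo n _ h2, ih]
          split_ifs <;> omega
    · rw [h.neg n ha]
      by_cases h1 : x = X n
      · rw [h.lo n (x + 1) (by omega), h1, h.ls, cnt_neg ha]
        rw [h1] at ih
        split_ifs at ih ⊢ <;> omega
      · rw [h.lo n x h1]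
        by_cases h2 : x + 1 = X n
        · rw [h2] at ih ⊢
          rw [h.ls, cnt_pos (a := fun j => ¬ a (X n) j) ha]
          push_cast
          split_ifs at ih ⊢ <;> omega
        · rw [h.lo n _ h2, ih]
          split_ifs <;> omega

lemma Walk.sum_le (h : Walk a X L) (S : Finset ℤ) (n : ℕ) : ∑ x ∈ S, L n x ≤ n := by
  induction n with
  | zero => simp [h.l0]
  | succ n ih =>
    have : ∀ x ∈ S, L (n + 1) x = L n x + if x = X n then 1 else 0 := fun x _ => by
      split_ifs with e
      · rw [e, h.ls]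
      · rw [h.lo n x e, add_zero]
    rw [sum_congr rfl this, sum_add_distrib, sum_ite_eq']
    split_ifs <;> omega

lemma Walk.left (h : Walk a X L) {n k N : ℕ} {x : ℤ} (h0 : 0 ≤ x) (h1 : x < X n)
    (hk : k ≤ cnt (fun j => ¬ a (x + 1) j) (L n (x + 1))) (hN : cnt (a x) N ≤ k) :
    N ≤ k + cnt (fun j => ¬ a x j) (L n x) := by
  have := h.flow n x
  rw [if_pos h1, if_neg (by omega)] at this
  have h2 : N ≤ L n x := by
    by_contra hc
    have := cnt_mono (a x) (not_le.mp hc).le
    omega
  have := cnt_mono (fun j => ¬ a x j) h2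
  have := cnt_add (a x) N
  omega

lemma Walk.cost (h : Walk a X L) {n J s : ℕ} {y : ℤ} (h0 : (J : ℤ) ≤ y) (h1 : y < X n)
    (ht : ∀ j < 2 * J * s, ¬ a y j)
    (hg : ∀ i < J, cnt (a (y - i - 1)) ((4 * J - 2 * i - 1) * s) ≤ (2 * J - i) * s) :
    J * (J * s) ≤ n := by
  have key : ∀ i ≤ J, (2 * J - i) * s ≤ cnt (fun j => ¬ a (y - i) j) (L n (y - i)) := by
    intro i
    induction i with
    | zero =>
      intro _
      have : cnt (a y) (2 * J * s) ≤ 0 := by
        simp only [cnt, nonpos_iff_eq_zero, card_eq_zero, filter_eq_empty_iff, mem_range]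
        exact ht
      simpa using h.left (by omega) h1 (Nat.zero_le _) this
    | succ i ih =>
      intro hi
      have h3 := h.left (x := y - i - 1) (n := n) (by omega) (by omega)
        (by simpa using ih (by omega)) (hg i (by omega))
      have e : (4 * J - 2 * i - 1) * s = (2 * J - i) * s + (2 * J - (i + 1)) * s := by
        rw [← add_mul]; congr 1; omega
      rw [e] at h3
      push_cast
      rw [← sub_sub]
      omega
  refine le_trans ?_ (h.sum_le ((range J).image fun i : ℕ => y - i) n)
  rw [sum_image fun i _ j _ e => by simpa using e]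
  refine le_trans (by simp) (sum_le_sum (f := fun _ => J * s) fun i hi => ?_)
  have h2 := key i (mem_range.mp hi).le
  have h3 := cnt_add (a (y - i)) (L n (y - i))
  have : J * s ≤ (2 * J - i) * s := Nat.mul_le_mul_right _ (by have := mem_range.mp hi; omega)
  omega

end Pool.Agent.H.MP_204ba2_pr
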