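import Pool.Agent.H.MP_204ba2_pr.A

namespace Pool.Agent.H.MP_204ba2_pr

open Finset MeasureTheory ProbabilityTheory Filter Topology

variable {S : Type} [MeasurableSpace S] (ρ : Measure S) [IsProbabilityMeasure ρ]

lemma cnt_meas {A : S → ℕ → Prop} (hA : ∀ n, MeasurableSet {s | A s n}) (N : ℕ) :
    Measurable fun s => cnt (A s) N := by
  simp only [cnt, card_filter]
  exact Finset.measurable_sum _ fun n _ => Measurable.ite (hA n) measurable_const measurable_const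

lemma no_trap {T : Set S} (hT : MeasurableSet T) (F : Finset ℤ) :
    (Measure.infinitePi fun _ : ℤ => ρ).real {c | ∀ y ∈ F, c y ∉ T} * (F.card * ρ.real T) ≤ 1 := by
  have e : {c : ℤ → S | ∀ y ∈ F, c y ∉ T} = Set.pi F fun _ => Tᶜ := rfl
  rw [e, measureReal_def, Measure.infinitePi_pi _ fun _ _ => hT.compl, prod_const,
    ENNReal.toReal_pow, ← measureReal_def, probReal_compl_eq_one_sub hT]
  have h0 : 0 ≤ ρ.real T := measureReal_nonneg
  have h1 : ρ.real T ≤ 1 := measureReal_le_one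
  have h2 := one_add_mul_le_pow (a := ρ.real T) (by linarith) F.card
  have h3 : 0 ≤ (1 - ρ.real T) ^ F.card := pow_nonneg (by linarith) _
  have h4 : ((1 - ρ.real T) * (1 + ρ.real T)) ^ F.card ≤ 1 :=
    pow_le_one₀ (by nlinarith) (by nlinarith)
  rw [mul_pow] at h4
  nlinarith

lemma pair {T B : Set S} (hT : MeasurableSet T) (hB : MeasurableSet B) {x y : ℤ} (h : x ≠ y) :
    (Measure.infinitePi fun _ : ℤ => ρ).real {c | c x ∈ T ∧ c y ∈ B} = ρ.real T * ρ.real B := by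
  rw [← measureReal_prod_prod, ← Measure.infinitePi_map_eval_prod (P := fun _ : ℤ => ρ) h,
    map_measureReal_apply (by fun_prop) (hT.prod hB)]
  rfl

lemma scale {A : S → ℕ → Prop} (hA : ∀ n, MeasurableSet {s | A s n}) {D : ℝ} (hD : 0 ≤ D)
    (hb : ∀ (N : ℕ) (d : ℝ), 0 < d → ρ.real {s | N / 2 + d < cnt (A s) N} ≤ D / d + N / d ^ 2)
    {T : Set S} (hT : MeasurableSet T) {t B : ℕ} (ht : 1 ≤ t) (hB : 1 ≤ B)
    (h1 : 1 / 2 ≤ ρ.real T * t ^ 12) (h2 : ρ.real T * t ^ 12 ≤ 1) :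
    (Measure.infinitePi fun _ : ℤ => ρ).real {c | ¬ ∃ y ∈ Ico (t ^ 3 : ℤ) (t ^ 3 + t ^ 13),
      c y ∈ T ∧ ∀ i < t ^ 3, cnt (A (c (y - i - 1))) ((4 * t ^ 3 - 2 * i - 1) * (B * t ^ 8)) ≤
        (2 * t ^ 3 - i) * (B * t ^ 8)} ≤ (2 * D + 18) / t := by
  set F := Ico (t ^ 3 : ℤ) (t ^ 3 + t ^ 13)
  set P := Measure.infinitePi fun _ : ℤ => ρ
  let W : ℕ → Set S := fun i => {s | (2 * t ^ 3 - i) * (B * t ^ 8) <
    cnt (A s) ((4 * t ^ 3 - 2 * i - 1) * (B * t ^ 8))}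
  have hW : ∀ i, MeasurableSet (W i) := fun i => measurableSet_lt measurable_const (cnt_meas hA _)
  have t0 : (1 : ℝ) ≤ t := by exact_mod_cast ht
  have B0 : (1 : ℝ) ≤ B := by exact_mod_cast hB
  have hF : (F.card : ℝ) = t ^ 13 := by
    have : F.card = t ^ 13 := by
      simp only [F, Int.card_Ico, add_sub_cancel_left]
      exact_mod_cast Int.toNat_natCast (t ^ 13)
    exact_mod_cast this
  have hWl : ∀ i ∈ range (t ^ 3), ρ.real (W i) ≤ (2 * D + 16) / t ^ 5 := fun i hi => by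
    have hi := mem_range.mp hi
    have e : (((4 * t ^ 3 - 2 * i - 1) * (B * t ^ 8) : ℕ) : ℝ) / 2 + B * t ^ 8 / 2 =
        ((2 * t ^ 3 - i) * (B * t ^ 8) : ℕ) := by
      obtain ⟨u, hu⟩ : ∃ u, 2 * t ^ 3 - i = u + 1 := ⟨2 * t ^ 3 - i - 1, by omega⟩
      rw [hu, show 4 * t ^ 3 - 2 * i - 1 = 2 * u + 1 by omega]
      push_cast
      ring
    have h3 := hb ((4 * t ^ 3 - 2 * i - 1) * (B * t ^ 8)) (B * t ^ 8 / 2) (by positivity)
    simp only [e, Nat.cast_lt] at h3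
    refine h3.trans ?_
    have h4 : (((4 * t ^ 3 - 2 * i - 1) * (B * t ^ 8) : ℕ) : ℝ) ≤ 4 * t ^ 3 * (B * t ^ 8) := by
      exact_mod_cast Nat.mul_le_mul_right _ (by omega)
    rw [add_div]
    have h5 : (t : ℝ) ^ 5 ≤ B * t ^ 8 := by
      have := pow_le_pow_right₀ t0 (show 5 ≤ 8 by norm_num)
      nlinarith [pow_pos (show (0 : ℝ) < t by linarith) 8]
    refine add_le_add ?_ ((div_le_div_of_nonneg_right h4 (by positivity)).trans ?_)
    · rw [div_le_div_iff₀ (by positivity) (by positivity)]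
      nlinarith
    · rw [div_le_div_iff₀ (by positivity) (by positivity)]
      have : 0 ≤ (B : ℝ) * t ^ 16 * (B - 1) := by
        have : (0 : ℝ) ≤ B - 1 := by linarith
        positivity
      nlinarith
  calc _ ≤ P.real ({c | ∀ y ∈ F, c y ∉ T} ∪ ⋃ y ∈ F, ⋃ i ∈ range (t ^ 3),
          {c | c y ∈ T ∧ c (y - i - 1) ∈ W i}) := by
        refine measureReal_mono fun c hc => ?_
        by_contra h
        simp only [Set.mem_union, Set.mem_ofPred_eq, Set.mem_iUnion, not_or, not_forall, not_not,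
          not_exists, not_and, W, not_lt, mem_range] at h
        obtain ⟨⟨y, hy, hT⟩, h⟩ := h
        exact hc ⟨y, hy, hT, fun i hi => h y hy i hi hT⟩
    _ ≤ 2 / t + ∑ y ∈ F, ∑ i ∈ range (t ^ 3), ρ.real T * ((2 * D + 16) / t ^ 5) := by
        refine (measureReal_union_le _ _).trans (add_le_add ?_ ((measureReal_biUnion_finset_le _ _).trans
          (sum_le_sum fun y _ => (measureReal_biUnion_finset_le _ _).trans (sum_le_sum fun i hi => ?_))))
        · have h3 := no_trap ρ hT F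
          rw [hF] at h3
          rw [le_div_iff₀ (by linarith)]
          have : 0 ≤ P.real {c | ∀ y ∈ F, c y ∉ T} * t := by positivity
          have e : (t : ℝ) ^ 13 * ρ.real T = t * (ρ.real T * t ^ 12) := by ring
          rw [e] at h3
          nlinarith
        · rw [pair ρ hT (hW i) (by omega)]
          exact mul_le_mul_of_nonneg_left (hWl i hi) measureReal_nonneg
    _ ≤ _ := by
        simp only [sum_const, card_range, nsmul_eq_mul, hF]
        push_cast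
        have : (t : ℝ) ^ 13 * (t ^ 3 * (ρ.real T * ((2 * D + 16) / t ^ 5))) =
            ρ.real T * t ^ 12 * ((2 * D + 16) / t) := by field_simp
        rw [this, show (2 * D + 18) / t = 2 / t + 1 * ((2 * D + 16) / t) by ring]
        gcongr

lemma slow {A : S → ℕ → Prop} (hA : ∀ n, MeasurableSet {s | A s n}) {D : ℝ} (hD : 0 ≤ D)
    (hb : ∀ (N : ℕ) (d : ℝ), 0 < d → ρ.real {s | N / 2 + d < cnt (A s) N} ≤ D / d + N / d ^ 2)
    {T : ℕ → Set S} (hT : ∀ j, MeasurableSet (T j)) {e B : ℕ} (he : 1 ≤ e) (hB : 1 ≤ B)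
    (h0 : ∀ j, ∀ s ∈ T j, ∀ n < 2 * B * (e * 4 ^ j) ^ 11, ¬ A s n)
    (h1 : ∀ j, 1 / 2 ≤ ρ.real (T j) * (e * 4 ^ j) ^ 12)
    (h2 : ∀ j, ρ.real (T j) * (e * 4 ^ j) ^ 12 ≤ 1) :
    ∀ᵐ c ∂(Measure.infinitePi fun _ : ℤ => ρ), ∀ X L, Walk (fun x => A (c x)) X L →
      ∀ ε : ℝ, 0 < ε → ∀ᶠ n in atTop, (X n : ℝ) ≤ ε * n := by
  have ht : ∀ j, 1 ≤ e * 4 ^ j := fun j => Nat.mul_pos he (by positivity)
  have e0 : (1 : ℝ) ≤ e := by exact_mod_cast he
  have hs : Summable fun j : ℕ => (2 * D + 18) / ((e * 4 ^ j : ℕ) : ℝ) := by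
    refine ((summable_geometric_of_lt_one (r := 1 / 4) (by norm_num) (by norm_num)).mul_left
      ((2 * D + 18) / e)).congr fun j => ?_
    push_cast
    rw [one_div, inv_pow]
    field_simp
  have bc := ae_eventually_notMem (μ := Measure.infinitePi fun _ : ℤ => ρ)
    (ne_top_of_le_ne_top hs.tsum_ofReal_ne_top (ENNReal.tsum_le_tsum fun j =>
      (ENNReal.le_ofReal_iff_toReal_le (measure_ne_top _ _) (by positivity)).mpr
        (scale ρ hA hD hb (hT j) (ht j) hB (by exact_mod_cast h1 j) (by exact_mod_cast h2 j))))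
  filter_upwards [bc] with c hc X L hw ε hε
  have h4 : Tendsto (fun j : ℕ => (4 : ℝ) ^ j) atTop atTop :=
    tendsto_pow_atTop_atTop_of_one_lt (by norm_num)
  obtain ⟨j0, hj⟩ := eventually_atTop.mp (hc.and (h4.eventually_ge_atTop (2 * 4 ^ 13 / ε)))
  filter_upwards [(tendsto_natCast_atTop_atTop (R := ℝ)).eventually_ge_atTop
    (2 * (e * 4 ^ j0) ^ 13 / ε)] with n hn
  by_contra hx
  rw [not_le] at hx
  rw [div_le_iff₀ hε] at hn
  have hex : ∃ j : ℕ, (X n : ℝ) < 2 * (e * 4 ^ (j0 + j + 1)) ^ 13 := by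
    obtain ⟨j, hj⟩ := (h4.eventually_gt_atTop (X n : ℝ)).exists
    refine ⟨j, hj.trans_le ?_⟩
    have h5 : (4 : ℝ) ^ j ≤ e * 4 ^ (j0 + j + 1) := by
      have := pow_le_pow_right₀ (show (1 : ℝ) ≤ 4 by norm_num) (show j ≤ j0 + j + 1 by omega)
      nlinarith [pow_pos (show (0 : ℝ) < 4 by norm_num) (j0 + j + 1)]
    have h6 : (1 : ℝ) ≤ e * 4 ^ (j0 + j + 1) := by exact_mod_cast ht _
    have := le_self_pow₀ h6 (show 13 ≠ 0 by norm_num)
    linarith
  classical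
  have h5 := Nat.find_spec hex
  have h6 : 2 * ((e : ℝ) * 4 ^ (j0 + Nat.find hex)) ^ 13 ≤ X n := by
    rcases h : Nat.find hex with _ | k
    · simp only [add_zero]; linarith
    · simpa [add_assoc] using Nat.find_min hex (m := k) (by omega)
  obtain ⟨h7, h8⟩ := hj (j0 + Nat.find hex) (by omega)
  have h9 := h0 (j0 + Nat.find hex)
  have h10 := ht (j0 + Nat.find hex)
  rw [pow_succ (4 : ℝ), ← mul_assoc] at h5
  have h11 : (4 : ℝ) ^ (j0 + Nat.find hex) ≤ e * 4 ^ (j0 + Nat.find hex) := by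
    nlinarith [pow_pos (show (0 : ℝ) < 4 by norm_num) (j0 + Nat.find hex)]
  replace h8 := h8.trans h11
  have e1 : (e : ℝ) * 4 ^ (j0 + Nat.find hex) = (e * 4 ^ (j0 + Nat.find hex) : ℕ) := by push_cast; rfl
  rw [e1] at h5 h6 h8
  generalize e * 4 ^ (j0 + Nat.find hex) = t at *
  obtain ⟨y, hy, hyT, hg⟩ := not_not.mp h7
  rw [mem_Ico] at hy
  have h12 : 2 * (t : ℤ) ^ 13 ≤ X n := by exact_mod_cast h6
  have h13 : (t : ℤ) ^ 3 ≤ t ^ 13 := pow_le_pow_right₀ (by exact_mod_cast h10) (by norm_num)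
  have h14 := hw.cost (n := n) (J := t ^ 3) (s := B * t ^ 8) (y := y) (by exact_mod_cast hy.1)
    (by omega) (fun j hj => h9 _ hyT j (by convert hj using 1; ring)) hg
  have h15 : (t : ℝ) ^ 14 ≤ n := by
    have : t ^ 14 ≤ n := le_trans (by
      rw [show t ^ 3 * (t ^ 3 * (B * t ^ 8)) = B * t ^ 14 by ring]
      exact Nat.le_mul_of_pos_left _ hB) h14
    exact_mod_cast this
  rw [div_le_iff₀ hε] at h8
  have : (0 : ℝ) < t ^ 13 := pow_pos (by exact_mod_cast h10) _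
  nlinarith

end Pool.Agent.H.MP_204ba2_pr
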