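import Pool.Agent.H.MP_204ba2_pr.B

namespace Pool.Agent.H.MP_204ba2_pr

open Finset MeasureTheory ProbabilityTheory Filter Topology

noncomputable abbrev un : Measure ℝ := volume.restrict (Set.Icc 0 1)

instance : IsProbabilityMeasure un := ⟨by simp⟩

noncomputable abbrev υ : Measure (ℕ → ℝ) := Measure.infinitePi fun _ : ℕ => un

lemma half {H : Set ℝ} (hH : MeasurableSet H) (h : un.real H = 1 / 2) (N : ℕ) {d : ℝ} (hd : 0 < d) :
    υ.real {u | N / 2 + d ≤ cnt (fun n => u n ∈ H) N} ≤ N / (4 * d ^ 2) := by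
  let f : ℝ → ℝ := H.indicator 1
  have hf : Measurable f := measurable_one.indicator hH
  have hb : ∀ x, f x ∈ Set.Icc (0 : ℝ) 1 := fun x => by
    by_cases hx : x ∈ H <;> simp [f, hx]
  let Y : ℕ → (ℕ → ℝ) → ℝ := fun n u => f (u n)
  have hY : ∀ n, Measurable (Y n) := fun n => hf.comp (measurable_pi_apply n)
  have hm : ∀ n, MemLp (Y n) 2 υ := fun n =>
    memLp_of_bounded (ae_of_all _ fun u => hb _) (hY n).aestronglyMeasurable 2
  have hi : iIndepFun Y υ := iIndepFun_infinitePi (X := fun _ => f) fun _ => hf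
  have hE : ∀ n, υ[Y n] = 1 / 2 := fun n => by
    rw [← h, ← integral_indicator_one hH, ← Measure.infinitePi_map_eval (fun _ : ℕ => un) n,
      integral_map (measurable_pi_apply n).aemeasurable hf.aestronglyMeasurable]
  have hv : variance (∑ n ∈ range N, Y n) υ ≤ N / 4 := by
    rw [IndepFun.variance_sum (fun n _ => hm n) fun i _ j _ hij => hi.indepFun hij]
    refine (sum_le_sum fun n _ => variance_le_sq_of_bounded (ae_of_all _ fun u => hb _)
      (hY n).aemeasurable).trans_eq ?_
    simp; ring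
  have hS : υ[∑ n ∈ range N, Y n] = (N : ℝ) / 2 := by
    simp only [Finset.sum_apply]
    rw [integral_finsetSum _ fun n _ => (hm n).integrable (by norm_num)]
    simp [hE]; ring
  have := meas_ge_le_variance_div_sq (memLp_finsetSum' _ fun n (_ : n ∈ range N) => hm n) hd
  rw [hS, ENNReal.le_ofReal_iff_toReal_le (measure_ne_top _ _)
    (div_nonneg (variance_nonneg _ _) (by positivity))] at this
  refine le_trans (le_trans (measureReal_mono fun u hu => ?_) this) ?_
  · have e : (∑ n ∈ range N, Y n) u = cnt (fun n => u n ∈ H) N := by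
      simp only [Finset.sum_apply, cnt, card_filter, Y, f]
      push_cast
      rfl
    simp only [Set.mem_ofPred_eq] at hu ⊢
    rw [e]
    exact le_trans (by linarith) (le_abs_self _)
  · rw [← div_div]
    gcongr

noncomputable def pp : unitInterval := ⟨1 - 1 / 4096, by norm_num, by norm_num⟩

lemma pp_ne : pp ≠ 0 := fun h => by
  have := congrArg Subtype.val h
  norm_num [pp] at this

def a (B i : ℕ) : ℕ := 2 * B * (2 ^ i) ^ 11

noncomputable def stack (B i n : ℕ) : ℝ := if n < a B i then if Even i then 1 else 0 else 1 / 2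

lemma w_eq (B i : ℕ) : (1 - pp : ℝ) ^ i * pp * a B i = 2 * B * pp * (1 / 2) ^ i := by
  have : (1 - pp : ℝ) = (1 / 2) ^ 12 := by norm_num [pp]
  rw [this, a, ← pow_mul, mul_comm 12, pow_mul]
  push_cast
  have : ((1 : ℝ) / 2) ^ i * 2 ^ i = 1 := by rw [← mul_pow]; norm_num
  linear_combination (exp := 1) (2 * B * pp * (1 / 2) ^ i) * ((((1 : ℝ) / 2) ^ i * 2 ^ i) ^ 10 +
    (((1 : ℝ) / 2) ^ i * 2 ^ i) ^ 9 + (((1 : ℝ) / 2) ^ i * 2 ^ i) ^ 8 +
    (((1 : ℝ) / 2) ^ i * 2 ^ i) ^ 7 + (((1 : ℝ) / 2) ^ i * 2 ^ i) ^ 6 +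
    (((1 : ℝ) / 2) ^ i * 2 ^ i) ^ 5 + (((1 : ℝ) / 2) ^ i * 2 ^ i) ^ 4 +
    (((1 : ℝ) / 2) ^ i * 2 ^ i) ^ 3 + (((1 : ℝ) / 2) ^ i * 2 ^ i) ^ 2 +
    (((1 : ℝ) / 2) ^ i * 2 ^ i) + 1) * this

lemma a_int (B : ℕ) : Integrable (fun i => (a B i : ℝ)) (geometricMeasure pp) := by
  simp only [integrable_geometricMeasure_iff pp_ne, Real.norm_natCast, w_eq]
  exact summable_geometric_two.mul_left _

lemma a_val (B : ℕ) : ∫ i, (a B i : ℝ) ∂geometricMeasure pp ≤ 4 * B := by
  simp only [integral_geometricMeasure pp_ne, smul_eq_mul, w_eq, tsum_mul_left, tsum_geometric_two]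
  have : (pp : ℝ) ≤ 1 := pp.2.2
  have : (0 : ℝ) ≤ B := by positivity
  nlinarith

lemma z_val (B : ℕ) : (B : ℝ) ≤ ∫ i, (-1) ^ i * (a B i : ℝ) ∂geometricMeasure pp := by
  have : ∀ i, ((1 - pp : ℝ) ^ i * pp) • ((-1) ^ i * (a B i : ℝ)) = 2 * B * pp * (-1 / 2) ^ i :=
    fun i => by rw [smul_eq_mul, mul_left_comm, w_eq, neg_div, neg_pow (1 / 2 : ℝ)]; ring
  simp only [integral_geometricMeasure pp_ne, this, tsum_mul_left]
  rw [tsum_geometric_of_abs_lt_one (by norm_num [abs_of_neg])]
  have : (0 : ℝ) ≤ B := by positivity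
  norm_num [pp]
  linarith

lemma stack_sum (B i : ℕ) : HasSum (fun n => 2 * stack B i n - 1) ((-1) ^ i * a B i) := by
  convert hasSum_sum_of_ne_finset_zero (s := range (a B i)) (L := .unconditional ℕ)
    (f := fun n => 2 * stack B i n - 1) fun n hn => by simp [stack, mt mem_range.mpr hn]
  rw [sum_congr rfl (g := fun _ => (-1) ^ i) fun n hn => ?_]
  · simp [mul_comm]
  · rcases Nat.even_or_odd i with h | h
    · norm_num [stack, mem_range.mp hn, h, h.neg_one_pow]
    · norm_num [stack, mem_range.mp hn, Nat.not_even_iff_odd.mpr h, h.neg_one_pow]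

lemma stack_abs (B i : ℕ) : HasSum (fun n => |2 * stack B i n - 1|) (a B i) := by
  convert hasSum_sum_of_ne_finset_zero (s := range (a B i)) (L := .unconditional ℕ)
    (f := fun n => |2 * stack B i n - 1|) fun n hn => by simp [stack, mt mem_range.mpr hn]
  rw [sum_congr rfl (g := fun _ => 1) fun n hn => ?_]
  · simp
  · simp only [stack, mem_range.mp hn, if_true]
    split_ifs <;> norm_num

lemma stack_inj {B : ℕ} (hB : 1 ≤ B) : Function.Injective (stack B) := fun i j h => by
  have h1 := (stack_abs B i).unique (h ▸ stack_abs B j)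
  have h2 : a B i = a B j := by exact_mod_cast h1
  simpa [a, show B ≠ 0 by omega] using h2

noncomputable def ν (B : ℕ) : Measure (ℕ → ℝ) := (geometricMeasure pp).map (stack B)

instance (B : ℕ) : IsProbabilityMeasure (ν B) :=
  Measure.isProbabilityMeasure_map (measurable_from_top (f := stack B)).aemeasurable

lemma bad {B : ℕ} {A : (ℕ → ℝ) × (ℕ → ℝ) → ℕ → Prop} (hA : ∀ n, MeasurableSet {s | A s n})
    {H : Set ℝ} (hH : MeasurableSet H) (h : un.real H = 1 / 2)
    (hAH : ∀ s u n, s n = 1 / 2 → A (s, u) n → u n ∈ H) (N : ℕ) (d : ℝ) (hd : 0 < d) :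
    ((ν B).prod υ).real {s | N / 2 + d < cnt (A s) N} ≤ 8 * B / d + N / d ^ 2 := by
  have hs : Measurable (stack B) := measurable_from_top
  have hm : MeasurableSet {s | (N : ℝ) / 2 + d < cnt (A s) N} := measurableSet_lt measurable_const
    ((measurable_from_top (f := fun n : ℕ => (n : ℝ))).comp (cnt_meas hA N))
  rw [ν, ← Measure.map_id (μ := υ), Measure.map_prod_map _ _ hs measurable_id,
    map_measureReal_apply (hs.prodMap measurable_id) hm]
  calc _ ≤ ((geometricMeasure pp).prod υ).real ({i | d / 2 ≤ a B i} ×ˢ Set.univ ∪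
          Set.univ ×ˢ {u | N / 2 + d / 2 ≤ cnt (fun n => u n ∈ H) N}) := by
        refine measureReal_mono fun ⟨i, u⟩ hx => ?_
        have : cnt (A (stack B i, u)) N ≤ a B i + cnt (fun n => u n ∈ H) N := by
          classical
          unfold cnt
          refine le_trans (card_le_card fun n hn => ?_) ((card_union_le (range (a B i))
            {n ∈ range N | u n ∈ H}).trans (by rw [card_range]))
          simp only [mem_filter, mem_union, mem_range] at hn ⊢
          by_cases h1 : n < a B i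
          exacts [.inl h1, .inr ⟨hn.1, hAH _ _ _ (by simp [stack, h1]) hn.2⟩]
        have h2 : (cnt (A (stack B i, u)) N : ℝ) ≤ a B i + cnt (fun n => u n ∈ H) N := by
          exact_mod_cast this
        have h3 : (N : ℝ) / 2 + d < cnt (A (stack B i, u)) N := hx
        by_contra hc
        simp only [Set.mem_union, Set.mem_prod, Set.mem_ofPred_eq, Set.mem_univ, and_true,
          true_and, not_or, not_le] at hc
        linarith [hc.1, hc.2]
    _ ≤ _ := by
        refine (measureReal_union_le _ _).trans (add_le_add ?_ ?_)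
        · rw [measureReal_prod_prod, probReal_univ, mul_one, le_div_iff₀ hd]
          have := mul_meas_ge_le_integral_of_nonneg (ae_of_all _ fun i => by positivity)
            (a_int B) (d / 2)
          linarith [a_val B]
        · rw [measureReal_prod_prod, probReal_univ, one_mul]
          exact (half hH h N (half_pos hd)).trans_eq (by ring)

def T (B k : ℕ) : Set ((ℕ → ℝ) × (ℕ → ℝ)) := {stack B k} ×ˢ Set.univ.pi fun _ => Set.Ico 0 1

lemma T_meas (B k : ℕ) : MeasurableSet (T B k) :=
  (measurableSet_singleton _).prod (.univ_pi fun _ => measurableSet_Ico)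

lemma T_val {B : ℕ} (hB : 1 ≤ B) (k : ℕ) : ((ν B).prod υ).real (T B k) * (2 ^ k) ^ 12 = pp := by
  have h1 : υ.real (Set.univ.pi fun _ => Set.Ico 0 1) = 1 := by
    rw [measureReal_def, Measure.infinitePi_pi_univ _ fun _ => measurableSet_Ico]
    simp [Set.inter_eq_left.mpr Set.Ico_subset_Icc_self]
  rw [T, measureReal_prod_prod, h1, ν, map_measureReal_apply measurable_from_top
    (measurableSet_singleton _), ← Set.image_singleton, Set.preimage_image_eq _ (stack_inj hB),
    geometricMeasure_real_singleton pp_ne, show (1 - pp : ℝ) = (2 ^ 12)⁻¹ by norm_num [pp],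
    ← pow_mul, mul_comm k, pow_mul, inv_pow]
  field_simp

lemma both {B : ℕ} (hB : 1 ≤ B) :
    ∀ᵐ c ∂(Measure.infinitePi fun _ : ℤ => (ν B).prod υ), ∀ X L,
      Walk (fun x n => (c x).2 n < (c x).1 n) X L →
        Tendsto (fun n => (X n : ℝ) / n) atTop (𝓝 0) := by
  have hm : ∀ n, MeasurableSet {s : (ℕ → ℝ) × (ℕ → ℝ) | s.2 n < s.1 n} := fun n =>
    measurableSet_lt (by fun_prop) (by fun_prop)
  have p1 : (1 : ℝ) / 2 ≤ pp := by norm_num [pp]
  have e1 : ∀ j : ℕ, ((2 : ℕ) : ℝ) * 4 ^ j = 2 ^ (2 * j + 1) := fun j => by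
    rw [pow_succ, pow_mul]; norm_num [mul_comm]
  have e2 : ∀ j : ℕ, ((1 : ℕ) : ℝ) * 4 ^ j = 2 ^ (2 * j) := fun j => by rw [pow_mul]; norm_num
  have h1 := slow ((ν B).prod υ) hm (D := 8 * B) (by positivity)
    (bad hm (H := Set.Iio (1 / 2)) measurableSet_Iio (by
      rw [measureReal_restrict_apply measurableSet_Iio, show Set.Iio (1 / 2 : ℝ) ∩ Set.Icc 0 1 =
        Set.Ico 0 (1 / 2) from Set.ext fun x => by grind]
      simp) fun s u n h1 h2 => h1 ▸ h2)
    (fun j => T_meas B (2 * j + 1)) (e := 2) (by norm_num) hB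
    (fun j s hs n hn => by
      have : n < a B (2 * j + 1) := by rwa [a, pow_succ 2, pow_mul, mul_comm _ 2]
      rw [show s.1 = _ from hs.1, stack, if_pos this, if_neg (by simp)]
      exact not_lt.mpr (hs.2 n trivial).1)
    (fun j => by rw [e1, T_val hB]; exact p1) fun j => by rw [e1, T_val hB]; exact pp.2.2
  have h2 := slow ((ν B).prod υ) (A := fun s n => ¬ s.2 n < s.1 n) (fun n => (hm n).compl)
    (D := 8 * B) (by positivity)
    (bad (fun n => (hm n).compl) (H := Set.Ici (1 / 2)) measurableSet_Ici (by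
      rw [measureReal_restrict_apply measurableSet_Ici, show Set.Ici (1 / 2 : ℝ) ∩ Set.Icc 0 1 =
        Set.Icc (1 / 2) 1 from Set.ext fun x => by grind]
      norm_num) fun s u n h1 h2 => h1 ▸ not_lt.mp h2)
    (fun j => T_meas B (2 * j)) (e := 1) le_rfl hB
    (fun j s hs n hn => by
      have : n < a B (2 * j) := by rwa [a, pow_mul, ← one_mul (_ ^ j)]
      rw [show s.1 = _ from hs.1, stack, if_pos this, if_pos (by simp), not_not]
      exact (hs.2 n trivial).2)
    (fun j => by rw [e2, T_val hB]; exact p1) fun j => by rw [e2, T_val hB]; exact pp.2.2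
  rw [← Measure.map_infinitePi_infinitePi_of_inj (P := fun _ : ℤ => (ν B).prod υ)
    (f := fun x : ℤ => -x) neg_injective] at h2
  filter_upwards [h1, ae_of_ae_map (Measurable.aemeasurable (by fun_prop)) h2] with c h1 h2 X L hw
  refine Metric.tendsto_nhds.mpr fun ε hε => ?_
  filter_upwards [h1 X L hw _ (half_pos hε), h2 _ _ hw.refl _ (half_pos hε), eventually_gt_atTop 0]
    with n h3 h4 h5
  have : (0 : ℝ) < n := by exact_mod_cast h5
  push_cast at h4
  rw [dist_zero_right, Real.norm_eq_abs, abs_div, abs_of_pos this, div_lt_iff₀ this, abs_lt]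
  constructor <;> nlinarith

end Pool.Agent.H.MP_204ba2_pr
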